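import Pool.Agent.FS.H39Drop.Drop

open MeasureTheory Pool.Agent.LevelSetFlow
open scoped NNReal

namespace Pool.Agent.Variants.MP_5aed36_gt.DropCurves

/-- For every `ε > 0`, the pairs (regular level `a`, time `T`) at which the perimeter of `{u > a}`
is discontinuous lie on countably many graphs `a = f k T` of `ε`-Lipschitz functions. -/
theorem result (n : ℕ) (u : EuclideanSpace ℝ (Fin (n + 1)) × ℝ → ℝ) (R c : ℝ)
    (hu : IsWeakSolution u)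
    (hout : ∀ x t, 0 ≤ t → R ≤ ‖x‖ → u (x, t) = c)
    (hg : ContDiff ℝ 2 fun x => u (x, 0)) (ε : ℝ≥0) (hε : 0 < ε) :
    ∃ f : ℕ → ℝ → ℝ, (∀ k, LipschitzWith ε (f k)) ∧
      ∀ a T : ℝ, c < a → (∀ x, u (x, 0) = a → fderiv ℝ (fun y => u (y, 0)) x ≠ 0) → 0 ≤ T →
        ¬ ContinuousWithinAt (fun t => perimeter {x | a < u (x, t)}) (Set.Ici 0) T →
        ∃ k, f k T = a := by
  have h : Pool.Agent.FS39.Cov ε (⋃ q : ℚ × ℚ, {z | (c < q.1 ∧ (q.1 : ℝ) < q.2 ∧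
      ∀ x, (q.1 : ℝ) ≤ u (x, 0) → u (x, 0) ≤ q.2 → fderiv ℝ (fun y => u (y, 0)) x ≠ 0) ∧
      (q.1 : ℝ) < z.1 ∧ z.1 < q.2 ∧ 0 ≤ z.2 ∧
      ¬ ContinuousWithinAt (fun t => perimeter {x | z.1 < u (x, t)}) (Set.Ici 0) z.2}) := by
    refine Pool.Agent.FS39.cov_iUnion fun q => ?_
    by_cases hq : c < q.1 ∧ (q.1 : ℝ) < q.2 ∧ ∀ x, (q.1 : ℝ) ≤ u (x, 0) →
        u (x, 0) ≤ q.2 → fderiv ℝ (fun y => u (y, 0)) x ≠ 0
    · exact (Pool.Agent.FS39.window_cov n.succ_pos hu hout hg hq.1 hq.2.1 hq.2.2 hε).mono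
        fun z hz => hz.2
    · exact Pool.Agent.FS39.cov_graph fun p hp => absurd hp.1 hq
  obtain ⟨f, h1, h2⟩ := h
  refine ⟨f, h1, fun a T hc hreg hT hd => ?_⟩
  obtain ⟨a₁, a₂, k1, k2, k3, k4⟩ := Pool.Agent.MCF5.exists_window hg
    (fun x hx => hout x 0 le_rfl hx) hc hreg
  exact h2 (a, T) (Set.mem_iUnion.2 ⟨(a₁, a₂), ⟨k1, k2.trans k3, k4⟩, k2, k3, hT, hd⟩)

end Pool.Agent.Variants.MP_5aed36_gt.DropCurves
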